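import Mathlib
import Pool.Agent.H47NP.G

/-!
# 2-near perfect numbers of the form `2 ^ k * p ^ m`, `m ≥ 2`

We determine them: they are `18`, `36`, `200` and the numbers `2 ^ k * p ^ 3` with
`p = 2 ^ (k + 1) - 1` a Mersenne prime. Hence there are finitely many of them if and only if there
are finitely many Mersenne primes.
-/

set_option autoImplicit false

namespace Pool.Agent.Results.MP_d695ac_nt.MersenneEquivalence

/-- `n` is 2-near perfect: it is positive and `σ(n) = 2 n + d₁ + d₂` for two distinct divisors -/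
def TwoNearPerfect (n : ℕ) : Prop :=
  0 < n ∧ ∃ d₁ d₂ : ℕ, d₁ ∣ n ∧ d₂ ∣ n ∧ d₁ ≠ d₂ ∧ ∑ d ∈ n.divisors, d = 2 * n + d₁ + d₂

theorem part1 (p k m : ℕ) (hp : p.Prime) (hm : 2 ≤ m) :
    TwoNearPerfect (2 ^ k * p ^ m) ↔
      2 ^ k * p ^ m = 18 ∨ 2 ^ k * p ^ m = 36 ∨ 2 ^ k * p ^ m = 200 ∨
        (m = 3 ∧ p + 1 = 2 ^ (k + 1)) := by
  constructor
  · rintro ⟨-, d1, d2, h1, h2, hne, h⟩
    rcases Pool.Agent.H47NP.forward hp hm h1 h2 hne h with
      ⟨rfl, ⟨rfl, rfl⟩ | ⟨rfl, rfl⟩ | ⟨rfl, rfl⟩⟩ | h3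
    · left; norm_num
    · right; left; norm_num
    · right; right; left; norm_num
    · right; right; right; exact h3
  · rintro (h | h | h | ⟨rfl, h⟩)
    · rw [h]
      exact ⟨by norm_num, 1, 2, by norm_num, by norm_num, by norm_num, by decide⟩
    · rw [h]
      exact ⟨by norm_num, 1, 18, by norm_num, by norm_num, by norm_num, by decide⟩
    · rw [h]
      exact ⟨by norm_num, 25, 40, by norm_num, by norm_num, by norm_num, by decide +kernel⟩
    · refine ⟨Nat.mul_pos (by positivity) (pow_pos hp.pos 3), p, p ^ 2, ?_, ?_, ?_,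
        Pool.Agent.H47NP.backward hp h⟩
      · exact Dvd.dvd.mul_left (dvd_pow_self p (by norm_num)) _
      · exact Dvd.dvd.mul_left (pow_dvd_pow p (by norm_num)) _
      · intro he
        have h2 := hp.two_le
        nlinarith

/-- **Main theorem.** (1) For a prime `p` and `m ≥ 2` the number `2 ^ k * p ^ m` is 2-near perfect if
and only if it is `18`, `36` or `200` or `m = 3` and `p = 2 ^ (k + 1) - 1`. (2) There are only
finitely many 2-near perfect numbers of the form `2 ^ k * p ^ m` with `p` prime and `m ≥ 2` if and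
only if there are only finitely many Mersenne primes. -/
theorem result :
    (∀ p k m : ℕ, p.Prime → 2 ≤ m →
      (TwoNearPerfect (2 ^ k * p ^ m) ↔
        2 ^ k * p ^ m = 18 ∨ 2 ^ k * p ^ m = 36 ∨ 2 ^ k * p ^ m = 200 ∨
          (m = 3 ∧ p + 1 = 2 ^ (k + 1)))) ∧
    ({n : ℕ | TwoNearPerfect n ∧ ∃ p k m : ℕ, p.Prime ∧ 2 ≤ m ∧ n = 2 ^ k * p ^ m}.Finite ↔
      {q : ℕ | q.Prime ∧ ∃ r : ℕ, q + 1 = 2 ^ r}.Finite) := by
  refine ⟨part1, ?_, ?_⟩
  · intro hfin
    have hinj : Set.InjOn (fun q : ℕ => (q + 1) / 2 * q ^ 3)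
        {q : ℕ | q.Prime ∧ ∃ r : ℕ, q + 1 = 2 ^ r} := by
      have hmono : ∀ x y : ℕ, x < y → 1 ≤ x → (x + 1) / 2 * x ^ 3 < (y + 1) / 2 * y ^ 3 := by
        intro x y hxy hx
        have e1 : (x + 1) / 2 ≤ (y + 1) / 2 := Nat.div_le_div_right (by omega)
        have e2 : x ^ 3 < y ^ 3 := Nat.pow_lt_pow_left hxy (by norm_num)
        have e3 : 0 < (y + 1) / 2 := by omega
        calc (x + 1) / 2 * x ^ 3 ≤ (y + 1) / 2 * x ^ 3 := Nat.mul_le_mul_right _ e1
          _ < (y + 1) / 2 * y ^ 3 := Nat.mul_lt_mul_of_pos_left e2 e3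
      intro x hx y hy hxy
      simp only at hxy
      rcases lt_trichotomy x y with h | h | h
      · have := hmono x y h hx.1.pos
        omega
      · exact h
      · have := hmono y x h hy.1.pos
        omega
    refine Set.Finite.of_finite_image (hfin.subset ?_) hinj
    rintro _ ⟨q, ⟨hq, r, hr⟩, rfl⟩
    obtain ⟨k, rfl⟩ : ∃ k, r = k + 1 := by
      refine Nat.exists_eq_succ_of_ne_zero ?_
      rintro rfl
      have := hq.two_le
      rw [pow_zero] at hr
      omega
    have he : (q + 1) / 2 = 2 ^ k := by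
      rw [hr, pow_succ]
      exact Nat.mul_div_cancel _ (by norm_num)
    simp only [he]
    exact ⟨(part1 q k 3 hq (by norm_num)).2 (Or.inr (Or.inr (Or.inr ⟨rfl, hr⟩))),
      q, k, 3, hq, by norm_num, rfl⟩
  · intro hfin
    refine ((Set.toFinite ({18, 36, 200} : Set ℕ)).union
      (hfin.image (fun q : ℕ => (q + 1) / 2 * q ^ 3))).subset ?_
    rintro n ⟨hn, p, k, m, hp, hm, rfl⟩
    rcases (part1 p k m hp hm).1 hn with h | h | h | ⟨rfl, h⟩
    · left; rw [h]; simp
    · left; rw [h]; simp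
    · left; rw [h]; simp
    · right
      refine ⟨p, ⟨hp, k + 1, h⟩, ?_⟩
      have he : (p + 1) / 2 = 2 ^ k := by
        rw [h, pow_succ]
        exact Nat.mul_div_cancel _ (by norm_num)
      simp only [he]

end Pool.Agent.Results.MP_d695ac_nt.MersenneEquivalence
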